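import Mathlib

/-!
# Infinite-dimensional Lie algebras whose proper subalgebras are finite-dimensional
-/

set_option autoImplicit false

namespace Pool.Agent.Helper606_LI

open LieAlgebra Module

section
variable {k : Type*} [Field k] {L : Type*} [LieRing L] [LieAlgebra k L]
variable (hinf : ¬ FiniteDimensional k L)
variable (hP : ∀ S : LieSubalgebra k L, S ≠ ⊤ → FiniteDimensional k S)
include hinf hP

lemma top_of_ker {V : Type*} [AddCommGroup V] [Module k V] [FiniteDimensional k V] (f : L →ₗ[k] V)
    (S : LieSubalgebra k L) (h : LinearMap.ker f ≤ S.toSubmodule) : S = ⊤ := by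
  by_contra hS
  have h1 : FiniteDimensional k S.toSubmodule := hP S hS
  have h2 : FiniteDimensional k (LinearMap.ker f) := Submodule.finiteDimensional_of_le h
  have h3 : Module.Finite k (L ⧸ LinearMap.ker f) := Module.Finite.equiv f.quotKerEquivRange.symm
  exact hinf (Module.Finite.of_submodule_quotient (LinearMap.ker f))

omit hinf hP in
lemma mem_center {y : L} : y ∈ LieAlgebra.center k L ↔ ∀ z : L, ⁅y, z⁆ = 0 := by
  rw [LieModule.mem_maxTrivSubmodule]
  constructor
  · intro h z
    rw [← lie_skew, h z, neg_zero]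
  · intro h z
    rw [← lie_skew, h z, neg_zero]

lemma center_ne_top : LieAlgebra.center k L ≠ ⊤ := by
  intro htop
  have hab : ∀ y z : L, ⁅y, z⁆ = 0 := fun y z => mem_center (k := k).mp (by rw [htop]; trivial) z
  have hne : ∃ v : L, v ≠ 0 := by
    by_contra hcon
    push Not at hcon
    apply hinf
    have : Subsingleton L := ⟨fun a b => by rw [hcon a, hcon b]⟩
    infer_instance
  obtain ⟨v, hv⟩ := hne
  obtain ⟨f, hf⟩ : ∃ f : Module.Dual k L, f v ≠ 0 := by
    by_contra hcon
    push Not at hcon
    exact hv ((Module.forall_dual_apply_eq_zero_iff k v).mp hcon)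
  let S : LieSubalgebra k L :=
    { LinearMap.ker f with
      lie_mem' := by
        intro a b _ _
        change ⁅a, b⁆ ∈ LinearMap.ker f
        rw [hab]
        exact Submodule.zero_mem _ }
  have h1 : S = ⊤ := top_of_ker hinf hP f S le_rfl
  have h2 : v ∈ S := by rw [h1]; trivial
  exact hf h2

lemma center_fd : FiniteDimensional k (LieAlgebra.center k L) := by
  have h := hP (LieIdeal.toLieSubalgebra k L (LieAlgebra.center k L)) (by
    intro h
    apply center_ne_top hinf hP
    rw [eq_top_iff]
    intro y _
    have : y ∈ LieIdeal.toLieSubalgebra k L (LieAlgebra.center k L) := by rw [h]; trivial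
    exact this)
  exact h

/-- the second term of the upper central series is the centre -/
lemma second_center {y : L} (hy : ∀ z : L, ⁅y, z⁆ ∈ LieAlgebra.center k L) :
    y ∈ LieAlgebra.center k L := by
  have hfd := center_fd hinf hP
  let Z : Submodule k L := (LieAlgebra.center k L : Submodule k L)
  have hfd' : FiniteDimensional k Z := hfd
  let f : L →ₗ[k] Z := LinearMap.codRestrict Z (LieAlgebra.ad k L y : L →ₗ[k] L) hy
  let S : LieSubalgebra k L :=
    { LinearMap.ker (LieAlgebra.ad k L y : L →ₗ[k] L) with
      lie_mem' := by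
        intro a b ha hb
        change ⁅y, ⁅a, b⁆⁆ = 0
        have ha' : ⁅y, a⁆ = 0 := ha
        have hb' : ⁅y, b⁆ = 0 := hb
        rw [leibniz_lie, ha', hb', zero_lie, lie_zero, add_zero] }
  have h1 : S = ⊤ := by
    refine top_of_ker hinf hP f S ?_
    intro z hz
    have h2 : f z = 0 := hz
    have h3 : ((f z : Z) : L) = 0 := by rw [h2]; rfl
    exact h3
  rw [mem_center]
  intro z
  have h2 : z ∈ S := by rw [h1]; trivial
  exact h2

/-- proper ideals are central -/
lemma ideal_le_center (I : LieIdeal k L) (hI : I ≠ ⊤) : I ≤ LieAlgebra.center k L := by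
  have h := hP (LieIdeal.toLieSubalgebra k L I) (by
    intro h
    apply hI
    rw [eq_top_iff]
    intro y _
    have : y ∈ LieIdeal.toLieSubalgebra k L I := by rw [h]; trivial
    exact this)
  have hfd : FiniteDimensional k I := h
  let f : L →ₗ[k] (I →ₗ[k] I) := LinearMap.mk₂ k (fun z i => ⁅z, i⁆) add_lie smul_lie
    (fun z => lie_add z) (fun r z i => lie_smul r z i)
  have hf : ∀ (z : L) (i : I), f z i = ⁅z, i⁆ := fun _ _ => rfl
  let S : LieSubalgebra k L :=
    { LinearMap.ker f with
      lie_mem' := by
        intro a b ha hb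
        have ha' : f a = 0 := ha
        have hb' : f b = 0 := hb
        change f ⁅a, b⁆ = 0
        apply LinearMap.ext
        intro i
        have e1 : ⁅a, i⁆ = 0 := by rw [← hf, ha']; rfl
        have e2 : ⁅b, i⁆ = 0 := by rw [← hf, hb']; rfl
        rw [hf, lie_lie, e1, e2, lie_zero, lie_zero, sub_zero]
        rfl }
  have h1 : S = ⊤ := top_of_ker hinf hP f S le_rfl
  intro i hi
  rw [LieModule.mem_maxTrivSubmodule]
  intro z
  have h2 : z ∈ S := by rw [h1]; trivial
  have h3 : f z = 0 := h2
  have h4 : (⁅z, (⟨i, hi⟩ : I)⁆ : I) = 0 := by rw [← hf, h3]; rfl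
  exact congrArg (fun j : I => (j : L)) h4

/-- the algebra is perfect -/
lemma derived_top : (⁅(⊤ : LieIdeal k L), (⊤ : LieIdeal k L)⁆ : LieIdeal k L) = ⊤ := by
  by_contra h
  have h1 := ideal_le_center hinf hP _ h
  apply center_ne_top hinf hP
  rw [eq_top_iff]
  intro y _
  apply second_center hinf hP
  intro z
  apply h1
  exact LieSubmodule.lie_mem_lie (LieSubmodule.mem_top y) (LieSubmodule.mem_top z)

end

end Pool.Agent.Helper606_LI
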