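import Pool.Agent.Helper606_LI.A

/-!
# Locally finite elements
-/

set_option autoImplicit false

namespace Pool.Agent.Helper606_LI

open LieAlgebra Module

variable {k : Type} [Field k] {L : Type} [LieRing L] [LieAlgebra k L]

/-- the generalized eigenspaces of `ad x` -/
noncomputable def W (k : Type) [Field k] {L : Type} [LieRing L] [LieAlgebra k L] (x : L) (a : k) :
    Submodule k L :=
  (LieModule.toEnd k L L x : Module.End k L).maxGenEigenspace a

lemma mem_W {x y : L} {a : k} : y ∈ W k x a ↔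
    ∃ n : ℕ, (((LieModule.toEnd k L L x : Module.End k L) - a • 1) ^ n) y = 0 :=
  Module.End.mem_maxGenEigenspace _ _ _

lemma lie_W {x u v : L} {a b : k} (hu : u ∈ W k x a) (hv : v ∈ W k x b) : ⁅u, v⁆ ∈ W k x (a + b) :=
  LieModule.lie_mem_maxGenEigenspace_toEnd hu hv

/-- `x` acts locally finitely -/
def LF (k : Type) [Field k] {L : Type} [LieRing L] [LieAlgebra k L] (x : L) : Prop :=
  ∀ y : L, ∃ V : Submodule k L, FiniteDimensional k V ∧ y ∈ V ∧ ∀ v ∈ V, ⁅x, v⁆ ∈ V

lemma iSup_W [IsAlgClosed k] {x : L} (hx : LF k x) : ⨆ a, W k x a = ⊤ := by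
  rw [eq_top_iff]
  intro y _
  obtain ⟨V, hV, hy, hxV⟩ := hx y
  set f : Module.End k L := LieModule.toEnd k L L x with hf
  have hm : ∀ v ∈ V, f v ∈ V := hxV
  have h1 := Module.End.iSup_maxGenEigenspace_eq_top (f.restrict hm)
  have h2 : (⟨y, hy⟩ : V) ∈ ⨆ a, Module.End.maxGenEigenspace (f.restrict hm) a := by rw [h1]; trivial
  have h3 : y ∈ (⨆ a, Module.End.maxGenEigenspace (f.restrict hm) a).map V.subtype := ⟨⟨y, hy⟩, h2, rfl⟩
  rw [Submodule.map_iSup] at h3
  have h5 : (⨆ a, Submodule.map V.subtype (Module.End.maxGenEigenspace (f.restrict hm) a)) ≤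
      ⨆ a, W k x a := by
    refine iSup_mono fun a => ?_
    rw [Submodule.map_le_iff_le_comap]
    intro v hv
    rw [Module.End.mem_maxGenEigenspace] at hv
    obtain ⟨n, hn⟩ := hv
    rw [Submodule.mem_comap, mem_W]
    refine ⟨n, ?_⟩
    have key : ∀ (m : ℕ) (u : V),
        (((f.restrict hm - a • 1) ^ m) u : L) = ((f - a • 1) ^ m) (u : L) := by
      intro m
      induction m with
      | zero => intro u; rfl
      | succ m ih =>
        intro u
        rw [pow_succ, pow_succ, Module.End.mul_apply, Module.End.mul_apply, ih]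
        rfl
    have h4 := key n v
    rw [hn] at h4
    exact h4.symm
  exact h5 h3

/-- the sum of the generalized eigenspaces for the eigenvalues in a set closed under addition -/
noncomputable def gr (x : L) (s : Set k) (hs : ∀ a ∈ s, ∀ b ∈ s, a + b ∈ s) : LieSubalgebra k L :=
  { (⨆ a : s, W k x (a : k)) with
    lie_mem' := by
      intro u v hu hv
      change ⁅u, v⁆ ∈ ⨆ a : s, W k x (a : k)
      have hu' : u ∈ ⨆ a : s, W k x (a : k) := hu
      have hv' : v ∈ ⨆ a : s, W k x (a : k) := hv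
      clear hu hv
      induction hu' using Submodule.iSup_induction' with
      | zero => rw [zero_lie]; exact Submodule.zero_mem _
      | add u u' _ _ ih ih' => rw [add_lie]; exact Submodule.add_mem _ ih ih'
      | mem a u hu =>
        induction hv' using Submodule.iSup_induction' with
        | zero => rw [lie_zero]; exact Submodule.zero_mem _
        | add v v' _ _ ih ih' => rw [lie_add]; exact Submodule.add_mem _ ih ih'
        | mem b v hv =>
          exact Submodule.mem_iSup_of_mem (⟨(a : k) + b, hs _ a.2 _ b.2⟩ : s) (lie_W hu hv) }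

lemma gr_coe (x : L) (s : Set k) (hs : ∀ a ∈ s, ∀ b ∈ s, a + b ∈ s) :
    (gr x s hs).toSubmodule = ⨆ a : s, W k x (a : k) := rfl

lemma not_mem_gr {x : L} {s : Set k} {hs : ∀ a ∈ s, ∀ b ∈ s, a + b ∈ s} {a : k} (ha : a ∉ s)
    {v : L} (hv : v ∈ W k x a) (hv0 : v ≠ 0) : v ∉ gr x s hs := by
  intro h
  have h1 : v ∈ ⨆ b : s, W k x (b : k) := h
  have h2 := Module.End.independent_maxGenEigenspace (LieModule.toEnd k L L x : Module.End k L)
  have h3 := h2 a
  have h4 : (⨆ b : s, W k x (b : k)) ≤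
      ⨆ (j : k) (_ : j ≠ a), (LieModule.toEnd k L L x : Module.End k L).maxGenEigenspace j := by
    refine iSup_le fun b => ?_
    exact le_iSup₂_of_le (b : k) (by rintro h; exact ha (h ▸ b.2)) le_rfl
  exact hv0 (Submodule.disjoint_def.mp h3 v hv (h4 h1))

section
variable (hinf : ¬ FiniteDimensional k L)
variable (hP : ∀ S : LieSubalgebra k L, S ≠ ⊤ → FiniteDimensional k S)
include hinf hP

/-- locally finite elements are locally nilpotent -/
theorem loc_nil [IsAlgClosed k] [CharZero k] {x : L} (hx : LF k x) (y : L) :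
    ∃ n : ℕ, ((LieModule.toEnd k L L x : Module.End k L) ^ n) y = 0 := by
  by_cases hx0 : x = 0
  · refine ⟨1, ?_⟩
    rw [hx0, pow_one]
    change ⁅(0 : L), y⁆ = 0
    exact zero_lie y
  have hW : ∀ a : k, a ≠ 0 → W k x a = ⊥ := by
    intro a ha
    by_contra hne
    obtain ⟨v, hv, hv0⟩ := (Submodule.ne_bot_iff _).mp hne
    obtain ⟨φ, hφ⟩ : ∃ φ : Module.Dual ℚ k, 0 < φ a := by
      obtain ⟨φ, hφ⟩ : ∃ φ : Module.Dual ℚ k, φ a ≠ 0 := by
        by_contra hcon
        push Not at hcon
        exact ha ((Module.forall_dual_apply_eq_zero_iff ℚ a).mp hcon)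
      rcases lt_or_gt_of_ne hφ with h | h
      · exact ⟨-φ, by rw [LinearMap.neg_apply]; linarith⟩
      · exact ⟨φ, h⟩
    have hs1 : ∀ a ∈ {b : k | 0 < φ b}, ∀ b ∈ {b : k | 0 < φ b}, a + b ∈ {b : k | 0 < φ b} := by
      intro a ha b hb
      simp only [Set.mem_ofPred_eq] at ha hb ⊢
      rw [map_add]; linarith
    have hs2 : ∀ a ∈ {b : k | φ b ≤ 0}, ∀ b ∈ {b : k | φ b ≤ 0}, a + b ∈ {b : k | φ b ≤ 0} := by
      intro a ha b hb
      simp only [Set.mem_ofPred_eq] at ha hb ⊢
      rw [map_add]; linarith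
    have hx1 : x ∈ W k x 0 := by
      rw [mem_W]
      refine ⟨1, ?_⟩
      rw [pow_one, zero_smul, sub_zero]
      change ⁅x, x⁆ = 0
      exact lie_self x
    have n1 : x ∉ gr x {b : k | 0 < φ b} hs1 := not_mem_gr (a := 0) (by simp) hx1 hx0
    have n2 : v ∉ gr x {b : k | φ b ≤ 0} hs2 :=
      not_mem_gr (a := a) (by simp only [Set.mem_ofPred_eq]; linarith) hv hv0
    have f1 : FiniteDimensional k (gr x {b : k | 0 < φ b} hs1).toSubmodule :=
      hP _ (by intro h; exact n1 (by rw [h]; trivial))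
    have f2 : FiniteDimensional k (gr x {b : k | φ b ≤ 0} hs2).toSubmodule :=
      hP _ (by intro h; exact n2 (by rw [h]; trivial))
    have h3 : (gr x {b : k | 0 < φ b} hs1).toSubmodule ⊔ (gr x {b : k | φ b ≤ 0} hs2).toSubmodule = ⊤ := by
      rw [eq_top_iff, ← iSup_W hx]
      refine iSup_le fun b => ?_
      by_cases hb : 0 < φ b
      · refine le_sup_of_le_left ?_
        rw [gr_coe]
        exact le_iSup (fun b : {b : k | 0 < φ b} => W k x (b : k)) ⟨b, hb⟩
      · refine le_sup_of_le_right ?_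
        rw [gr_coe]
        exact le_iSup (fun b : {b : k | φ b ≤ 0} => W k x (b : k)) ⟨b, not_lt.mp hb⟩
    have f3 : FiniteDimensional k (⊤ : Submodule k L) := by
      rw [← h3]
      infer_instance
    exact hinf (Module.finite_def.mpr ((Module.Finite.iff_fg).mp f3))
  have h1 : y ∈ ⨆ a, W k x a := by rw [iSup_W hx]; trivial
  have h2 : (⨆ a, W k x a) ≤ W k x 0 := by
    refine iSup_le fun a => ?_
    by_cases ha : a = 0
    · rw [ha]
    · rw [hW a ha]; exact bot_le
  obtain ⟨n, hn⟩ := mem_W.mp (h2 h1)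
  rw [zero_smul, sub_zero] at hn
  exact ⟨n, hn⟩

end

end Pool.Agent.Helper606_LI
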