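import Pool.Agent.Helper606_LI.B

/-!
# Finite generation
-/

set_option autoImplicit false

open scoped Classical

namespace Pool.Agent.Helper606_LI

open LieAlgebra Module

variable {k : Type} [Field k] {L : Type} [LieRing L] [LieAlgebra k L]

/-- in a nilpotent subalgebra there is an element outside of `Z` which is central modulo `Z` -/
lemma exists_mod (S : LieSubalgebra k L) [FiniteDimensional k S]
    (hnil : ∀ x y : L, ∃ n : ℕ, ((LieModule.toEnd k L L x : Module.End k L) ^ n) y = 0)
    (Z : Submodule k L) {x : L} (hx : x ∈ S) (hxZ : x ∉ Z) :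
    ∃ y ∈ S, y ∉ Z ∧ ∀ z ∈ S, ⁅y, z⁆ ∈ Z := by
  have h1 : LieModule.IsNilpotent S S := by
    rw [LieModule.isNilpotent_iff_forall (R := k)]
    intro s
    rw [Module.End.isNilpotent_iff_of_finite]
    intro m
    obtain ⟨n, hn⟩ := hnil s m
    refine ⟨n, ?_⟩
    have key : ∀ (i : ℕ) (u : S), ((((LieModule.toEnd k S S s : Module.End k S) ^ i) u : S) : L) =
        ((LieModule.toEnd k L L (s : L) : Module.End k L) ^ i) (u : L) := by
      intro i
      induction i with
      | zero => intro u; rfl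
      | succ i ih =>
        intro u
        rw [pow_succ, pow_succ, Module.End.mul_apply, Module.End.mul_apply, ih]
        rfl
    apply Subtype.ext
    rw [key, hn]
    rfl
  obtain ⟨j, hj⟩ := LieModule.IsNilpotent.nilpotent k S S
  have hex : ∃ j, ∀ y ∈ LieModule.lowerCentralSeries k S S j, (y : L) ∈ Z := by
    refine ⟨j, fun y hy => ?_⟩
    rw [hj, LieSubmodule.mem_bot] at hy
    rw [hy]
    exact Z.zero_mem
  have h2 := Nat.find_spec hex
  have h3 : Nat.find hex ≠ 0 := by
    intro h
    rw [h] at h2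
    exact hxZ (h2 ⟨x, hx⟩ (by rw [LieModule.lowerCentralSeries_zero]; exact LieSubmodule.mem_top _))
  obtain ⟨i, hi⟩ := Nat.exists_eq_succ_of_ne_zero h3
  have h4 := Nat.find_min hex (m := i) (by omega)
  push Not at h4
  obtain ⟨y, hy, hyZ⟩ := h4
  refine ⟨y, y.2, hyZ, fun z hz => ?_⟩
  have h5 : ⁅(⟨z, hz⟩ : S), y⁆ ∈ LieModule.lowerCentralSeries k S S (i + 1) := by
    rw [LieModule.lowerCentralSeries_succ]
    exact LieSubmodule.lie_mem_lie (LieSubmodule.mem_top _) hy
  rw [hi] at h2
  have h6 := h2 _ h5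
  have h7 : ((⁅(⟨z, hz⟩ : S), y⁆ : S) : L) = ⁅z, (y : L)⁆ := rfl
  rw [h7] at h6
  rw [← lie_skew]
  exact Z.neg_mem h6

section
variable (hinf : ¬ FiniteDimensional k L)
variable (hP : ∀ S : LieSubalgebra k L, S ≠ ⊤ → FiniteDimensional k S)
include hinf hP

/-- over an algebraically closed field of characteristic zero the algebra is finitely generated -/
theorem fin_gen [IsAlgClosed k] [CharZero k] :
    ∃ T : Finset L, LieSubalgebra.lieSpan k L (T : Set L) = ⊤ := by
  by_contra hcon
  push Not at hcon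
  have hfd : ∀ T : Finset L, FiniteDimensional k (LieSubalgebra.lieSpan k L (T : Set L)) :=
    fun T => hP _ (hcon T)
  have hLF : ∀ x : L, LF k x := by
    intro x y
    refine ⟨(LieSubalgebra.lieSpan k L (({x, y} : Finset L) : Set L)).toSubmodule, hfd _, ?_, ?_⟩
    · exact LieSubalgebra.subset_lieSpan (by simp)
    · intro v hv
      exact LieSubalgebra.lie_mem _ (LieSubalgebra.subset_lieSpan (by simp)) hv
  have hnil : ∀ x y : L, ∃ n : ℕ, ((LieModule.toEnd k L L x : Module.End k L) ^ n) y = 0 :=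
    fun x y => loc_nil hinf hP (hLF x) y
  let Z : Submodule k L := (LieAlgebra.center k L : Submodule k L)
  have hZ : ∀ y : L, y ∈ Z ↔ y ∈ LieAlgebra.center k L := fun _ => Iff.rfl
  obtain ⟨x, hx⟩ : ∃ x : L, x ∉ Z := by
    by_contra h
    push Not at h
    exact center_ne_top hinf hP (by rw [eq_top_iff]; intro y _; exact h y)
  let C : LieSubalgebra k L :=
    { carrier := {z | ⁅x, z⁆ ∈ Z}
      add_mem' := by
        intro a b ha hb
        simp only [Set.mem_ofPred_eq] at ha hb ⊢
        rw [lie_add]; exact Z.add_mem ha hb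
      zero_mem' := by
        simp only [Set.mem_ofPred_eq]
        rw [lie_zero]; exact Z.zero_mem
      smul_mem' := by
        intro r a ha
        simp only [Set.mem_ofPred_eq] at ha ⊢
        rw [lie_smul]; exact Z.smul_mem r ha
      lie_mem' := by
        intro a b ha hb
        have ha' : ⁅x, a⁆ ∈ LieAlgebra.center k L := ha
        have hb' : ⁅x, b⁆ ∈ LieAlgebra.center k L := hb
        rw [mem_center] at ha' hb'
        change ⁅x, ⁅a, b⁆⁆ ∈ Z
        rw [leibniz_lie, ha', zero_add, ← lie_skew, hb', neg_zero]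
        exact Z.zero_mem }
  have hCmem : ∀ z : L, z ∈ C ↔ ⁅x, z⁆ ∈ Z := fun _ => Iff.rfl
  have hCtop : C ≠ ⊤ := by
    intro h
    apply hx
    exact second_center hinf hP (fun z => by
      have : z ∈ C := by rw [h]; trivial
      exact this)
  have hCfd : FiniteDimensional k C.toSubmodule := hP C hCtop
  have hxC : x ∈ C := by rw [hCmem, lie_self]; exact Z.zero_mem
  let Y : LieSubalgebra k L → Submodule k L := fun S =>
    { carrier := {y | y ∈ C ∧ ∀ z ∈ S, ⁅y, z⁆ ∈ Z}
      add_mem' := by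
        intro a b ha hb
        refine ⟨C.add_mem ha.1 hb.1, fun z hz => ?_⟩
        rw [add_lie]; exact Z.add_mem (ha.2 z hz) (hb.2 z hz)
      zero_mem' := ⟨C.zero_mem, fun z _ => by rw [zero_lie]; exact Z.zero_mem⟩
      smul_mem' := by
        intro r a ha
        refine ⟨C.smul_mem r ha.1, fun z hz => ?_⟩
        rw [smul_lie]; exact Z.smul_mem r (ha.2 z hz) }
  have hY : ∀ (S : LieSubalgebra k L) (y : L), y ∈ Y S ↔ y ∈ C ∧ ∀ z ∈ S, ⁅y, z⁆ ∈ Z :=
    fun _ _ => Iff.rfl
  have hYle : ∀ S, Y S ≤ C.toSubmodule := fun S y hy => hy.1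
  have hYfd : ∀ S, FiniteDimensional k (Y S) := fun S => Submodule.finiteDimensional_of_le (hYle S)
  have hexn : ∃ n : ℕ, ∃ S : LieSubalgebra k L, FiniteDimensional k S ∧ C ≤ S ∧
      Module.finrank k (Y S) = n := ⟨_, C, hCfd, le_rfl, rfl⟩
  obtain ⟨S0, hS0fd, hS0C, hS0⟩ := Nat.find_spec hexn
  have hmin : ∀ S : LieSubalgebra k L, FiniteDimensional k S → C ≤ S →
      Module.finrank k (Y S0) ≤ Module.finrank k (Y S) := by
    intro S h1 h2
    rw [hS0]
    exact Nat.find_min' hexn ⟨S, h1, h2, rfl⟩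
  obtain ⟨y, hyS, hyZ, hy⟩ := exists_mod S0 hnil Z (hS0C hxC) hx
  have hyC : y ∈ C := by
    rw [hCmem, ← lie_skew]
    exact Z.neg_mem (hy x (hS0C hxC))
  have hyY : y ∈ Y S0 := ⟨hyC, hy⟩
  apply hyZ
  apply second_center hinf hP
  intro z
  have hfg : (S0.toSubmodule).FG := (Submodule.fg_iff_finiteDimensional _).mpr hS0fd
  obtain ⟨B, hB⟩ := hfg
  set T : LieSubalgebra k L := LieSubalgebra.lieSpan k L ((insert z B : Finset L) : Set L) with hT
  have hzT : z ∈ T := LieSubalgebra.subset_lieSpan (by simp)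
  have hST : S0 ≤ T := by
    intro u hu
    have h1 : u ∈ S0.toSubmodule := hu
    rw [← hB] at h1
    have h2 : Submodule.span k (B : Set L) ≤ T.toSubmodule := by
      rw [Submodule.span_le]
      intro b hb
      exact LieSubalgebra.subset_lieSpan (by simp only [Finset.coe_insert]; exact Or.inr hb)
    exact h2 h1
  have hTfd : FiniteDimensional k T := hfd _
  have h1 : Y T ≤ Y S0 := fun u hu => ⟨hu.1, fun v hv => hu.2 v (hST hv)⟩
  have h2 : Y T = Y S0 := by
    have := hYfd S0
    exact Submodule.eq_of_le_of_finrank_le h1 (hmin T hTfd (hS0C.trans hST))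
  rw [← h2] at hyY
  exact hyY.2 z hzT

end

end Pool.Agent.Helper606_LI
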