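import Pool.Agent.Helper606_LI.A

/-!
# Gradings by ordered groups
-/

set_option autoImplicit false

namespace Pool.Agent.Helper606_LI

open LieAlgebra Module

variable {k : Type} [Field k] {L : Type} [LieRing L] [LieAlgebra k L]
variable {Γ : Type} [AddCommGroup Γ]

/-- a grading of `L` by `Γ` -/
structure Grad (W : Γ → Submodule k L) : Prop where
  sup : ⨆ a, W a = ⊤
  ind : iSupIndep W
  lie : ∀ a b : Γ, ∀ u ∈ W a, ∀ v ∈ W b, ⁅u, v⁆ ∈ W (a + b)

/-- the subalgebra of a set of degrees closed under addition -/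
def GS {W : Γ → Submodule k L} (hW : Grad W) (s : Set Γ) (hs : ∀ a ∈ s, ∀ b ∈ s, a + b ∈ s) :
    LieSubalgebra k L :=
  { (⨆ a : s, W (a : Γ)) with
    lie_mem' := by
      intro u v hu hv
      change ⁅u, v⁆ ∈ ⨆ a : s, W (a : Γ)
      have hu' : u ∈ ⨆ a : s, W (a : Γ) := hu
      have hv' : v ∈ ⨆ a : s, W (a : Γ) := hv
      clear hu hv
      induction hu' using Submodule.iSup_induction' with
      | zero => rw [zero_lie]; exact Submodule.zero_mem _
      | add u u' _ _ ih ih' => rw [add_lie]; exact Submodule.add_mem _ ih ih'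
      | mem a u hu =>
        induction hv' using Submodule.iSup_induction' with
        | zero => rw [lie_zero]; exact Submodule.zero_mem _
        | add v v' _ _ ih ih' => rw [lie_add]; exact Submodule.add_mem _ ih ih'
        | mem b v hv =>
          exact Submodule.mem_iSup_of_mem (⟨(a : Γ) + b, hs _ a.2 _ b.2⟩ : s)
            (hW.lie _ _ _ hu _ hv) }

lemma not_mem_iSup {W : Γ → Submodule k L} (hW : Grad W) {s : Set Γ} {a : Γ} (ha : a ∉ s) {v : L}
    (hv : v ∈ W a) (hv0 : v ≠ 0) : v ∉ ⨆ b : s, W (b : Γ) := by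
  intro h1
  have h3 := hW.ind a
  have h4 : (⨆ b : s, W (b : Γ)) ≤ ⨆ (j : Γ) (_ : j ≠ a), W j := by
    refine iSup_le fun b => ?_
    exact le_iSup₂_of_le (b : Γ) (by rintro h; exact ha (h ▸ b.2)) le_rfl
  exact hv0 (Submodule.disjoint_def.mp h3 v hv (h4 h1))

section
variable (hinf : ¬ FiniteDimensional k L)
variable (hP : ∀ S : LieSubalgebra k L, S ≠ ⊤ → FiniteDimensional k S)
include hinf hP

theorem no_pos {Λ : Type} [AddCommGroup Λ] [LinearOrder Λ] [IsOrderedAddMonoid Λ] (φ : Γ →+ Λ)
    {W : Γ → Submodule k L} (hW : Grad W) {a : Γ} (ha : 0 < φ a) : W a = ⊥ := by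
  by_contra hne
  obtain ⟨v, hv, hv0⟩ := (Submodule.ne_bot_iff _).mp hne
  have hs1 : ∀ a ∈ {b : Γ | 0 < φ b}, ∀ b ∈ {b : Γ | 0 < φ b}, a + b ∈ {b : Γ | 0 < φ b} := by
    intro a ha b hb
    change 0 < φ (a + b)
    rw [map_add]
    exact add_pos (show 0 < φ a from ha) (show 0 < φ b from hb)
  have hs2 : ∀ a ∈ {b : Γ | φ b ≤ 0}, ∀ b ∈ {b : Γ | φ b ≤ 0}, a + b ∈ {b : Γ | φ b ≤ 0} := by
    intro a ha b hb
    change φ (a + b) ≤ 0
    rw [map_add]
    exact add_nonpos (show φ a ≤ 0 from ha) (show φ b ≤ 0 from hb)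
  have n2 : v ∉ GS hW {b : Γ | φ b ≤ 0} hs2 :=
    not_mem_iSup hW (a := a) (by intro h; exact absurd ha (not_lt.mpr h)) hv hv0
  have f2 : FiniteDimensional k (GS hW {b : Γ | φ b ≤ 0} hs2).toSubmodule :=
    hP _ (by intro h; exact n2 (by rw [h]; trivial))
  have h3 : (GS hW {b : Γ | 0 < φ b} hs1).toSubmodule ⊔
      (GS hW {b : Γ | φ b ≤ 0} hs2).toSubmodule = ⊤ := by
    rw [eq_top_iff, ← hW.sup]
    refine iSup_le fun b => ?_
    by_cases hb : 0 < φ b
    · refine le_sup_of_le_left ?_
      exact le_iSup (fun b : {b : Γ | 0 < φ b} => W (b : Γ)) ⟨b, hb⟩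
    · refine le_sup_of_le_right ?_
      exact le_iSup (fun b : {b : Γ | φ b ≤ 0} => W (b : Γ)) ⟨b, not_lt.mp hb⟩
  have h4 : GS hW {b : Γ | 0 < φ b} hs1 = ⊤ := by
    by_contra h
    have f1 : FiniteDimensional k (GS hW {b : Γ | 0 < φ b} hs1).toSubmodule := hP _ h
    have f3 : FiniteDimensional k (⊤ : Submodule k L) := by
      rw [← h3]
      infer_instance
    exact hinf (Module.finite_def.mpr ((Module.Finite.iff_fg).mp f3))
  have h5 : ∀ b : Γ, φ b ≤ 0 → W b = ⊥ := by
    intro b hb
    by_contra hne'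
    obtain ⟨u, hu, hu0⟩ := (Submodule.ne_bot_iff _).mp hne'
    have n1 : u ∉ GS hW {b : Γ | 0 < φ b} hs1 :=
      not_mem_iSup hW (a := b) (by intro h; exact absurd hb (not_le.mpr h)) hu hu0
    exact n1 (by rw [h4]; trivial)
  -- the pieces of larger degree form an ideal
  have h6 : ∀ b c : Γ, φ b < φ c → W b ≠ ⊥ → W c ≤ (LieAlgebra.center k L : Submodule k L) := by
    intro b c hbc hWb
    obtain ⟨u, hu, hu0⟩ := (Submodule.ne_bot_iff _).mp hWb
    let I : LieIdeal k L :=
      { (⨆ e : {e : Γ | φ b < φ e}, W (e : Γ)) with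
        lie_mem := by
          intro z m hm
          change ⁅z, m⁆ ∈ ⨆ e : {e : Γ | φ b < φ e}, W (e : Γ)
          have hm' : m ∈ ⨆ e : {e : Γ | φ b < φ e}, W (e : Γ) := hm
          have hz : z ∈ ⨆ d, W d := by rw [hW.sup]; trivial
          clear hm
          induction hz using Submodule.iSup_induction' with
          | zero => rw [zero_lie]; exact Submodule.zero_mem _
          | add u u' _ _ ih ih' => rw [add_lie]; exact Submodule.add_mem _ ih ih'
          | mem d z hz =>
            by_cases hd : 0 < φ d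
            · induction hm' using Submodule.iSup_induction' with
              | zero => rw [lie_zero]; exact Submodule.zero_mem _
              | add v v' _ _ ih ih' => rw [lie_add]; exact Submodule.add_mem _ ih ih'
              | mem e m hm =>
                exact Submodule.mem_iSup_of_mem (⟨d + e, by
                  have h7 : φ b < φ (e : Γ) := e.2
                  change φ b < φ (d + e)
                  rw [map_add]
                  exact h7.trans (lt_add_of_pos_left _ hd)⟩ : {e : Γ | φ b < φ e})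
                  (hW.lie _ _ _ hz _ hm)
            · rw [h5 d (not_lt.mp hd)] at hz
              rw [(Submodule.mem_bot k).mp hz, zero_lie]
              exact Submodule.zero_mem _ }
    have hI : I ≠ ⊤ := by
      intro h
      have h8 : u ∈ I := by rw [h]; trivial
      exact not_mem_iSup hW (s := {e : Γ | φ b < φ e}) (a := b)
        (by intro h; exact absurd (show φ b < φ b from h) (lt_irrefl _)) hu hu0 h8
    have h9 := ideal_le_center hinf hP I hI
    intro y hy
    exact h9 (Submodule.mem_iSup_of_mem (⟨c, hbc⟩ : {e : Γ | φ b < φ e}) hy)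
  -- all pieces are central
  have h10 : ∀ d : Γ, W d ≤ (LieAlgebra.center k L : Submodule k L) := by
    intro d
    by_cases hd : W d = ⊥
    · rw [hd]; exact bot_le
    by_cases hex : ∃ b, φ b < φ d ∧ W b ≠ ⊥
    · obtain ⟨b, hb, hb'⟩ := hex
      exact h6 b d hb hb'
    · push Not at hex
      have hd0 : 0 < φ d := by
        by_contra h
        exact hd (h5 d (not_lt.mp h))
      intro u hu
      refine second_center hinf hP (fun z => ?_)
      have hz : z ∈ ⨆ d, W d := by rw [hW.sup]; trivial
      induction hz using Submodule.iSup_induction' with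
      | zero => rw [lie_zero]; exact Submodule.zero_mem (LieAlgebra.center k L : Submodule k L)
      | add v v' _ _ ih ih' =>
        rw [lie_add]
        exact Submodule.add_mem (LieAlgebra.center k L : Submodule k L) ih ih'
      | mem e z hz =>
        by_cases he : φ e < φ d
        · rw [hex e he] at hz
          rw [(Submodule.mem_bot k).mp hz, lie_zero]
          exact Submodule.zero_mem (LieAlgebra.center k L : Submodule k L)
        · have h11 : φ d < φ (d + e) := by
            rw [map_add]
            exact lt_add_of_pos_right _ (hd0.trans_le (not_lt.mp he))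
          exact h6 d (d + e) h11 hd (hW.lie _ _ _ hu _ hz)
  apply center_ne_top hinf hP
  rw [eq_top_iff]
  intro y _
  have hy : y ∈ ⨆ d, W d := by rw [hW.sup]; trivial
  exact (iSup_le h10) hy

/-- the degrees are in the kernels of the homomorphisms to ordered groups -/
theorem no_ne {Λ : Type} [AddCommGroup Λ] [LinearOrder Λ] [IsOrderedAddMonoid Λ] (φ : Γ →+ Λ)
    {W : Γ → Submodule k L} (hW : Grad W) {a : Γ} (ha : φ a ≠ 0) : W a = ⊥ := by
  rcases lt_trichotomy (φ a) 0 with h | h | h
  · refine no_pos hinf hP (-φ) hW ?_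
    rw [AddMonoidHom.neg_apply]
    exact neg_pos.mpr h
  · exact absurd h ha
  · exact no_pos hinf hP φ hW h

/-- every grading by an ordered group is trivial -/
theorem grad_trivial [LinearOrder Γ] [IsOrderedAddMonoid Γ] {W : Γ → Submodule k L}
    (hW : Grad W) : W 0 = ⊤ := by
  rw [eq_top_iff, ← hW.sup]
  refine iSup_le fun a => ?_
  by_cases h : a = 0
  · rw [h]
  · rw [no_ne hinf hP (AddMonoidHom.id Γ) hW h]; exact bot_le

end

end Pool.Agent.Helper606_LI
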