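import Pool.Agent.Helper606_LI.A

/-!
# The quotient by the centre
-/

set_option autoImplicit false

namespace Pool.Agent.Helper606_LI

open LieAlgebra Module

variable {k : Type} [Field k] {L : Type} [LieRing L] [LieAlgebra k L]

/-- the projection to the quotient by the centre -/
def qc (k L : Type) [Field k] [LieRing L] [LieAlgebra k L] :
    L →ₗ⁅k⁆ (L ⧸ LieAlgebra.center k L) :=
  { ((LieSubmodule.Quotient.mk' (LieAlgebra.center k L) :
      L →ₗ⁅k,L⁆ (L ⧸ LieAlgebra.center k L)) : L →ₗ[k] (L ⧸ LieAlgebra.center k L)) with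
    map_lie' := by
      intro x y
      exact LieSubmodule.Quotient.mk_bracket _ x y }

lemma qc_surj : Function.Surjective (qc k L) := Quot.mk_surjective

lemma qc_zero {x : L} : qc k L x = 0 ↔ x ∈ LieAlgebra.center k L :=
  LieSubmodule.Quotient.mk_eq_zero _

section
variable (hinf : ¬ FiniteDimensional k L)
variable (hP : ∀ S : LieSubalgebra k L, S ≠ ⊤ → FiniteDimensional k S)
include hinf hP

lemma quot_inf : ¬ FiniteDimensional k (L ⧸ LieAlgebra.center k L) := by
  intro h
  have h1 : FiniteDimensional k (LieAlgebra.center k L : Submodule k L) := center_fd hinf hP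
  have h2 : Module.Finite k (L ⧸ (LieAlgebra.center k L : Submodule k L)) := h
  exact hinf (Module.Finite.of_submodule_quotient (LieAlgebra.center k L : Submodule k L))

omit hinf in
lemma quot_P (S : LieSubalgebra k (L ⧸ LieAlgebra.center k L)) (hS : S ≠ ⊤) :
    FiniteDimensional k S := by
  have h1 : S.comap (qc k L) ≠ ⊤ := by
    intro h
    apply hS
    rw [eq_top_iff]
    intro m _
    obtain ⟨x, rfl⟩ := qc_surj m
    have h2 : x ∈ S.comap (qc k L) := by rw [h]; trivial
    exact h2
  have h2 : FiniteDimensional k (S.comap (qc k L)).toSubmodule := hP _ h1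
  have h3 : S.toSubmodule = (S.comap (qc k L)).toSubmodule.map (qc k L : L →ₗ[k] _) := by
    apply le_antisymm
    · intro m hm
      obtain ⟨x, rfl⟩ := qc_surj m
      exact ⟨x, hm, rfl⟩
    · rintro _ ⟨x, hx, rfl⟩
      exact hx
  have h4 : FiniteDimensional k S.toSubmodule := by
    rw [h3]
    infer_instance
  exact h4

lemma quot_simple : LieAlgebra.IsSimple k (L ⧸ LieAlgebra.center k L) := by
  refine ⟨fun I => ?_, fun h => ?_⟩
  · by_cases hI : I.comap (qc k L) = ⊤
    · right
      rw [eq_top_iff]
      intro m _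
      obtain ⟨x, rfl⟩ := qc_surj m
      have h2 : x ∈ I.comap (qc k L) := by rw [hI]; trivial
      exact LieIdeal.mem_comap.mp h2
    · left
      have h1 := ideal_le_center hinf hP _ hI
      rw [eq_bot_iff]
      intro m hm
      obtain ⟨x, rfl⟩ := qc_surj m
      rw [LieSubmodule.mem_bot, qc_zero]
      exact h1 (LieIdeal.mem_comap.mpr hm)
  · apply center_ne_top hinf hP
    rw [eq_top_iff]
    intro y _
    apply second_center hinf hP
    intro z
    rw [← qc_zero, LieHom.map_lie]
    exact h.trivial _ _

end

end Pool.Agent.Helper606_LI
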