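import Pool.Agent.Helper606_LI.C

/-!
# Locally finite elements are central
-/

set_option autoImplicit false

open scoped Classical

namespace Pool.Agent.Helper606_LI

open LieAlgebra Module

variable {k : Type} [Field k] {L : Type} [LieRing L] [LieAlgebra k L]

/-- the linear map `ad x` -/
def T (k : Type) [Field k] {L : Type} [LieRing L] [LieAlgebra k L] (x : L) : Module.End k L :=
  LieModule.toEnd k L L x

lemma T_apply (x y : L) : T k x y = ⁅x, y⁆ := rfl

/-- the centralizer -/
def Ce (k : Type) [Field k] {L : Type} [LieRing L] [LieAlgebra k L] (x : L) : LieSubalgebra k L :=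
  { LinearMap.ker (T k x) with
    lie_mem' := by
      intro a b ha hb
      change ⁅x, ⁅a, b⁆⁆ = 0
      have ha' : ⁅x, a⁆ = 0 := ha
      have hb' : ⁅x, b⁆ = 0 := hb
      rw [leibniz_lie, ha', hb', zero_lie, lie_zero, add_zero] }

lemma mem_Ce {x y : L} : y ∈ Ce k x ↔ ⁅x, y⁆ = 0 := Iff.rfl

lemma mem_Ce' {x y : L} : y ∈ Ce k x ↔ ⁅y, x⁆ = 0 := by
  rw [mem_Ce, ← lie_skew, neg_eq_zero]

/-- `x` acts locally nilpotently -/
def LN (k : Type) [Field k] {L : Type} [LieRing L] [LieAlgebra k L] (x : L) : Prop :=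
  ∀ y : L, ∃ n : ℕ, (T k x ^ n) y = 0

/-- the commutation rule -/
lemma T_comm {y z : L} {μ : k} (h : ⁅z, y⁆ = μ • y) (n : ℕ) (m : L) :
    (T k y ^ n) ⁅z, m⁆ = ⁅z, (T k y ^ n) m⁆ - ((n : k) * μ) • (T k y ^ n) m := by
  induction n with
  | zero => simp
  | succ n ih =>
    rw [pow_succ', Module.End.mul_apply, Module.End.mul_apply, ih, map_sub, map_smul, T_apply,
      leibniz_lie y z, ← lie_skew y z, h, T_apply]
    push_cast
    rw [neg_lie, smul_lie, add_mul, add_smul, one_mul]
    abel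

/-- a family of commuting-type operators which are nilpotent have a common eigenvector modulo a
subspace -/
lemma exists_mod' (S : LieSubalgebra k L) [FiniteDimensional k S]
    (hnil : ∀ x ∈ S, LN k x) (V : Submodule k L) [FiniteDimensional k V]
    (hV : ∀ s ∈ S, ∀ v ∈ V, ⁅s, v⁆ ∈ V) (Z : Submodule k L)
    {x : L} (hx : x ∈ V) (hxZ : x ∉ Z) :
    ∃ y ∈ V, y ∉ Z ∧ ∀ s ∈ S, ⁅s, y⁆ ∈ Z := by
  let N : LieSubmodule k S L :=
    { V with
      lie_mem := by
        intro s v hv
        exact hV s s.2 v hv }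
  have hN : FiniteDimensional k N := ‹FiniteDimensional k V›
  have h1 : LieModule.IsNilpotent S N := by
    rw [LieModule.isNilpotent_iff_forall (R := k)]
    intro s
    rw [Module.End.isNilpotent_iff_of_finite]
    intro m
    obtain ⟨n, hn⟩ := hnil s s.2 m
    refine ⟨n, ?_⟩
    have key : ∀ (i : ℕ) (u : N), ((((LieModule.toEnd k S N s : Module.End k N) ^ i) u : N) : L) =
        (T k (s : L) ^ i) (u : L) := by
      intro i
      induction i with
      | zero => intro u; rfl
      | succ i ih =>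
        intro u
        rw [pow_succ, pow_succ, Module.End.mul_apply, Module.End.mul_apply, ih]
        rfl
    apply Subtype.ext
    rw [key, hn]
    rfl
  obtain ⟨j, hj⟩ := LieModule.IsNilpotent.nilpotent k S N
  have hex : ∃ j, ∀ y ∈ LieModule.lowerCentralSeries k S N j, (y : L) ∈ Z := by
    refine ⟨j, fun y hy => ?_⟩
    rw [hj, LieSubmodule.mem_bot] at hy
    rw [hy]
    exact Z.zero_mem
  have h2 := Nat.find_spec hex
  have h3 : Nat.find hex ≠ 0 := by
    intro h
    rw [h] at h2
    exact hxZ (h2 ⟨x, hx⟩ (by rw [LieModule.lowerCentralSeries_zero]; exact LieSubmodule.mem_top _))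
  obtain ⟨i, hi⟩ := Nat.exists_eq_succ_of_ne_zero h3
  have h4 := Nat.find_min hex (m := i) (by omega)
  push Not at h4
  obtain ⟨y, hy, hyZ⟩ := h4
  refine ⟨y, y.2, hyZ, fun s hs => ?_⟩
  have h5 : ⁅(⟨s, hs⟩ : S), y⁆ ∈ LieModule.lowerCentralSeries k S N (i + 1) := by
    rw [LieModule.lowerCentralSeries_succ]
    exact LieSubmodule.lie_mem_lie (LieSubmodule.mem_top _) hy
  rw [hi] at h2
  exact h2 _ h5

end Pool.Agent.Helper606_LI
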