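import Pool.Agent.Helper606_LI.F
import Pool.Agent.Helper606_LI.E

/-!
# Locally finite elements are central: the proof
-/

set_option autoImplicit false
set_option linter.unusedSectionVars false

open scoped Classical

namespace Pool.Agent.Helper606_LI

open LieAlgebra Module

variable {k : Type} [Field k] {L : Type} [LieRing L] [LieAlgebra k L]

/-- the centre of the centralizer -/
def AA (k : Type) [Field k] {L : Type} [LieRing L] [LieAlgebra k L] (x : L) : Submodule k L where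
  carrier := {a | a ∈ Ce k x ∧ ∀ c ∈ Ce k x, ⁅a, c⁆ = 0}
  add_mem' := by
    intro a b ha hb
    refine ⟨(Ce k x).add_mem ha.1 hb.1, fun c hc => ?_⟩
    rw [add_lie, ha.2 c hc, hb.2 c hc, add_zero]
  zero_mem' := ⟨(Ce k x).zero_mem, fun c _ => zero_lie c⟩
  smul_mem' := by
    intro r a ha
    refine ⟨(Ce k x).smul_mem r ha.1, fun c hc => ?_⟩
    rw [smul_lie, ha.2 c hc, smul_zero]

lemma mem_AA {x a : L} : a ∈ AA k x ↔ a ∈ Ce k x ∧ ∀ c ∈ Ce k x, ⁅a, c⁆ = 0 := Iff.rfl

lemma self_AA (x : L) : x ∈ AA k x := ⟨by rw [mem_Ce, lie_self], fun _ hc => hc⟩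

section
variable (hinf : ¬ FiniteDimensional k L)
variable (hP : ∀ S : LieSubalgebra k L, S ≠ ⊤ → FiniteDimensional k S)
variable (hc0 : ∀ y : L, (∀ z : L, ⁅y, z⁆ = 0) → y = 0)
include hinf hP hc0

lemma Ce_ne_top {y : L} (hy : y ≠ 0) : Ce k y ≠ ⊤ := by
  intro h
  apply hy
  apply hc0
  intro z
  have : z ∈ Ce k y := by rw [h]; trivial
  exact this

lemma Ce_fd {y : L} (hy : y ≠ 0) : FiniteDimensional k (Ce k y).toSubmodule :=
  hP _ (Ce_ne_top hinf hP hc0 hy)

lemma K_fd {y : L} (hy : y ≠ 0) (n : ℕ) : FiniteDimensional k (LinearMap.ker (T k y ^ n)) := by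
  induction n with
  | zero =>
    have h : LinearMap.ker (T k y ^ 0) = ⊥ := by
      rw [pow_zero]
      exact LinearMap.ker_id
    rw [h]
    infer_instance
  | succ n ih =>
    rw [← Submodule.fg_iff_finiteDimensional]
    refine Submodule.fg_of_fg_map_of_fg_inf_ker (T k y) ?_ ?_
    · rw [Submodule.fg_iff_finiteDimensional]
      refine Submodule.finiteDimensional_of_le (S₂ := LinearMap.ker (T k y ^ n)) ?_
      rintro _ ⟨m, hm, rfl⟩
      have hm' : (T k y ^ (n + 1)) m = 0 := hm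
      rw [pow_succ, Module.End.mul_apply] at hm'
      exact hm'
    · rw [Submodule.fg_iff_finiteDimensional]
      have := Ce_fd hinf hP hc0 hy
      exact Submodule.finiteDimensional_of_le (S₂ := (Ce k y).toSubmodule) (fun m hm => hm.2)

lemma eig_zero [IsAlgClosed k] [CharZero k] {y z : L} (hy : y ≠ 0) (hLN : LN k y) {μ : k}
    (h : ⁅z, y⁆ = μ • y) : LN k z ∧ μ = 0 := by
  have hLF : LF k z := by
    intro m
    obtain ⟨n, hn⟩ := hLN m
    refine ⟨LinearMap.ker (T k y ^ n), K_fd hinf hP hc0 hy n, hn, fun v hv => ?_⟩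
    have hv' : (T k y ^ n) v = 0 := hv
    change (T k y ^ n) ⁅z, v⁆ = 0
    rw [T_comm h, hv', lie_zero, smul_zero, sub_zero]
  have hz : LN k z := fun m => loc_nil hinf hP hLF m
  refine ⟨hz, ?_⟩
  obtain ⟨n, hn⟩ := hz y
  have key : ∀ n : ℕ, (T k z ^ n) y = μ ^ n • y := by
    intro n
    induction n with
    | zero => simp
    | succ n ih =>
      rw [pow_succ', Module.End.mul_apply, ih, map_smul, T_apply, h, smul_smul, pow_succ]
  rw [key] at hn
  rcases smul_eq_zero.mp hn with h1 | h1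
  · by_contra hμ
    exact pow_ne_zero n hμ h1
  · exact absurd h1 hy

theorem no_LN [IsAlgClosed k] [CharZero k] {x : L} (hx : LN k x) : x = 0 := by
  by_contra hx0
  have hexn : ∃ n : ℕ, ∃ x : L, x ≠ 0 ∧ LN k x ∧ Module.finrank k (AA k x) = n :=
    ⟨_, x, hx0, hx, rfl⟩
  obtain ⟨x0, hx00, hLN, hx0n⟩ := Nat.find_spec hexn
  have hmin : ∀ v : L, v ≠ 0 → LN k v → Module.finrank k (AA k x0) ≤ Module.finrank k (AA k v) := by
    intro v h1 h2
    rw [hx0n]
    exact Nat.find_min' hexn ⟨v, h1, h2, rfl⟩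
  have hCfd : FiniteDimensional k (Ce k x0).toSubmodule := Ce_fd hinf hP hc0 hx00
  have hAle : AA k x0 ≤ (Ce k x0).toSubmodule := fun a ha => ha.1
  have hAfd : FiniteDimensional k (AA k x0) := Submodule.finiteDimensional_of_le hAle
  -- elements of the centralizer act locally nilpotently
  have hCLN : ∀ c ∈ Ce k x0, LN k c := by
    intro c hc
    have h1 : ⁅c, x0⁆ = (0 : k) • x0 := by
      rw [zero_smul]
      exact mem_Ce'.mp hc
    exact (eig_zero hinf hP hc0 hx00 hLN h1).1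
  have hmax : ∀ v ∈ AA k x0, v ≠ 0 → Ce k v ≤ Ce k x0 := by
    intro v hv hv0
    have hvx : ⁅v, x0⁆ = 0 := mem_Ce'.mp hv.1
    have h1 : AA k v ≤ AA k x0 := by
      intro a ha
      refine ⟨mem_Ce'.mpr (ha.2 x0 hvx), fun c hc => ?_⟩
      exact ha.2 c (hv.2 c hc)
    have h2 : AA k v = AA k x0 :=
      Submodule.eq_of_le_of_finrank_le h1 (hmin v hv0 (hCLN v hv.1))
    have h3 : x0 ∈ AA k v := by rw [h2]; exact self_AA x0
    intro c hc
    exact h3.2 c hc
  -- the second kernel is larger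
  obtain ⟨x1, hx1, hx1C⟩ : ∃ x1 : L, x1 ∈ LinearMap.ker (T k x0 ^ 2) ∧ x1 ∉ (Ce k x0).toSubmodule := by
    by_contra hcon
    push Not at hcon
    have h1 : ∀ (n : ℕ) (m : L), (T k x0 ^ n) m = 0 → m ∈ Ce k x0 := by
      intro n
      induction n with
      | zero =>
        intro m hm
        have hm' : m = 0 := hm
        rw [hm']
        exact (Ce k x0).zero_mem
      | succ n ih =>
        intro m hm
        rw [pow_succ, Module.End.mul_apply] at hm
        have h2 := ih _ hm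
        apply hcon m
        change (T k x0 ^ 2) m = 0
        rw [pow_two, Module.End.mul_apply]
        exact h2
    apply Ce_ne_top hinf hP hc0 hx00
    rw [eq_top_iff]
    intro m _
    obtain ⟨n, hn⟩ := hLN m
    exact h1 n m hn
  have hV : FiniteDimensional k (LinearMap.ker (T k x0 ^ 2)) := K_fd hinf hP hc0 hx00 2
  obtain ⟨z, hzV, hzC, hz⟩ := exists_mod' (Ce k x0) hCLN (LinearMap.ker (T k x0 ^ 2)) (by
    intro s hs v hv
    have hv' : (T k x0 ^ 2) v = 0 := hv
    change (T k x0 ^ 2) ⁅s, v⁆ = 0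
    have h1 : ⁅s, x0⁆ = (0 : k) • x0 := by
      rw [zero_smul]
      exact mem_Ce'.mp hs
    rw [T_comm h1, hv', lie_zero, smul_zero, sub_zero]) (Ce k x0).toSubmodule hx1 hx1C
  have hz' : ∀ s ∈ Ce k x0, ⁅z, s⁆ ∈ Ce k x0 := by
    intro s hs
    rw [← lie_skew]
    exact (Ce k x0).neg_mem (hz s hs)
  have hstab : ∀ a ∈ AA k x0, T k z a ∈ AA k x0 := by
    intro a ha
    refine ⟨hz' a ha.1, fun c hc => ?_⟩
    rw [T_apply, lie_lie, ha.2 c hc, lie_zero, ha.2 _ (hz' c hc), sub_zero]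
  have hnt : Nontrivial (AA k x0) :=
    ⟨⟨⟨x0, self_AA x0⟩, 0, fun h => hx00 (congrArg (fun a : AA k x0 => (a : L)) h)⟩⟩
  obtain ⟨μ, hμ⟩ := Module.End.exists_eigenvalue (K := k) ((T k z).restrict hstab)
  obtain ⟨v, hv⟩ := hμ.exists_hasEigenvector
  have hv1 : ⁅z, (v : L)⁆ = μ • (v : L) :=
    congrArg (fun a : AA k x0 => (a : L)) hv.apply_eq_smul
  have hv0 : (v : L) ≠ 0 := fun h => hv.2 (Subtype.ext h)
  have hvLN : LN k (v : L) := hCLN _ v.2.1
  have hμ0 := (eig_zero hinf hP hc0 hv0 hvLN hv1).2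
  rw [hμ0, zero_smul] at hv1
  exact hzC (hmax v v.2 hv0 (mem_Ce'.mpr hv1))

end

section
variable (hinf : ¬ FiniteDimensional k L)
variable (hP : ∀ S : LieSubalgebra k L, S ≠ ⊤ → FiniteDimensional k S)
include hinf hP

/-- elements which act locally finitely are central -/
theorem LF_central [IsAlgClosed k] [CharZero k] {x : L} (hx : LF k x) :
    x ∈ LieAlgebra.center k L := by
  rw [← qc_zero]
  have hq := quot_inf hinf hP
  have hqP : ∀ S : LieSubalgebra k (L ⧸ LieAlgebra.center k L), S ≠ ⊤ → FiniteDimensional k S :=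
    quot_P hP
  have hq0 : ∀ m : L ⧸ LieAlgebra.center k L, (∀ z : L ⧸ LieAlgebra.center k L, ⁅m, z⁆ = 0) → m = 0 := by
    intro m hm
    obtain ⟨y, rfl⟩ := qc_surj m
    rw [qc_zero]
    apply second_center hinf hP
    intro z
    rw [← qc_zero, LieHom.map_lie]
    exact hm _
  have hLF : LF k (qc k L x) := by
    intro m
    obtain ⟨y, rfl⟩ := qc_surj m
    obtain ⟨V, hV, hy, hxV⟩ := hx y
    refine ⟨V.map (qc k L : L →ₗ[k] _), inferInstance, ⟨y, hy, rfl⟩, ?_⟩
    rintro _ ⟨v, hv, rfl⟩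
    refine ⟨⁅x, v⁆, hxV v hv, ?_⟩
    exact LieHom.map_lie (qc k L) x v
  exact no_LN hq hqP hq0 (fun m => loc_nil hq hqP hLF m)

end

end Pool.Agent.Helper606_LI
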