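import Pool.Agent.Helper606_LI.G
import Pool.Agent.Helper606_LI.D

/-!
# Locally finite derivations are zero
-/

set_option autoImplicit false

open scoped Classical

namespace Pool.Agent.Helper606_LI

open LieAlgebra Module

variable {k : Type} [Field k] {L : Type} [LieRing L] [LieAlgebra k L]

/-- `D` is locally finite -/
def LFD (D : Module.End k L) : Prop :=
  ∀ y : L, ∃ V : Submodule k L, FiniteDimensional k V ∧ y ∈ V ∧ ∀ v ∈ V, D v ∈ V

lemma binom {D : Module.End k L} (hD : ∀ u v : L, D ⁅u, v⁆ = ⁅D u, v⁆ + ⁅u, D v⁆) (a b : k) (n : ℕ) :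
    ∀ (i j : ℕ) (u v : L), i + j ≤ n → ((D - a • 1) ^ i) u = 0 → ((D - b • 1) ^ j) v = 0 →
      ((D - (a + b) • 1) ^ n) ⁅u, v⁆ = 0 := by
  induction n with
  | zero =>
    intro i j u v hij hu hv
    obtain rfl : i = 0 := by omega
    have hu' : u = 0 := hu
    rw [hu', zero_lie, map_zero]
  | succ n ih =>
    intro i j u v hij hu hv
    rcases Nat.eq_zero_or_pos i with rfl | hi
    · have hu' : u = 0 := hu
      rw [hu', zero_lie, map_zero]
    rcases Nat.eq_zero_or_pos j with rfl | hj
    · have hv' : v = 0 := hv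
      rw [hv', lie_zero, map_zero]
    have e : (D - (a + b) • 1) ⁅u, v⁆ = ⁅(D - a • 1) u, v⁆ + ⁅u, (D - b • 1) v⁆ := by
      simp only [LinearMap.sub_apply, LinearMap.add_apply, LinearMap.smul_apply,
        Module.End.one_apply, hD, sub_lie, lie_sub, smul_lie, lie_smul, add_smul]
      abel
    rw [pow_succ, Module.End.mul_apply, e, map_add]
    obtain ⟨i, rfl⟩ := Nat.exists_eq_add_of_le' hi
    obtain ⟨j, rfl⟩ := Nat.exists_eq_add_of_le' hj
    rw [ih i (j + 1) _ _ (by omega) (by rw [← Module.End.mul_apply, ← pow_succ]; exact hu) hv,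
      ih (i + 1) j _ _ (by omega) hu (by rw [← Module.End.mul_apply, ← pow_succ]; exact hv),
      add_zero]

lemma iSup_D [IsAlgClosed k] {D : Module.End k L} (hx : LFD D) :
    ⨆ a, D.maxGenEigenspace a = ⊤ := by
  rw [eq_top_iff]
  intro y _
  obtain ⟨V, hV, hy, hm⟩ := hx y
  have h1 := Module.End.iSup_maxGenEigenspace_eq_top (D.restrict hm)
  have h2 : (⟨y, hy⟩ : V) ∈ ⨆ a, Module.End.maxGenEigenspace (D.restrict hm) a := by
    rw [h1]; trivial
  have h3 : y ∈ (⨆ a, Module.End.maxGenEigenspace (D.restrict hm) a).map V.subtype :=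
    ⟨⟨y, hy⟩, h2, rfl⟩
  rw [Submodule.map_iSup] at h3
  have h5 : (⨆ a, Submodule.map V.subtype (Module.End.maxGenEigenspace (D.restrict hm) a)) ≤
      ⨆ a, D.maxGenEigenspace a := by
    refine iSup_mono fun a => ?_
    rw [Submodule.map_le_iff_le_comap]
    intro v hv
    rw [Module.End.mem_maxGenEigenspace] at hv
    obtain ⟨n, hn⟩ := hv
    rw [Submodule.mem_comap, Module.End.mem_maxGenEigenspace]
    refine ⟨n, ?_⟩
    have key : ∀ (m : ℕ) (u : V),
        (((D.restrict hm - a • 1) ^ m) u : L) = ((D - a • 1) ^ m) (u : L) := by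
      intro m
      induction m with
      | zero => intro u; rfl
      | succ m ih =>
        intro u
        rw [pow_succ, pow_succ, Module.End.mul_apply, Module.End.mul_apply, ih]
        rfl
    have h4 := key n v
    rw [hn] at h4
    exact h4.symm
  exact h5 h3

section
variable (hinf : ¬ FiniteDimensional k L)
variable (hP : ∀ S : LieSubalgebra k L, S ≠ ⊤ → FiniteDimensional k S)
include hinf hP

lemma der_nil [IsAlgClosed k] [CharZero k] {D : Module.End k L}
    (hD : ∀ u v : L, D ⁅u, v⁆ = ⁅D u, v⁆ + ⁅u, D v⁆) (hx : LFD D) (y : L) :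
    ∃ n : ℕ, (D ^ n) y = 0 := by
  have hG : Grad (fun a : k => D.maxGenEigenspace a) := by
    refine ⟨iSup_D hx, Module.End.independent_maxGenEigenspace D, ?_⟩
    intro a b u hu v hv
    rw [Module.End.mem_maxGenEigenspace] at hu hv ⊢
    obtain ⟨i, hi⟩ := hu
    obtain ⟨j, hj⟩ := hv
    exact ⟨i + j, binom hD a b (i + j) i j u v le_rfl hi hj⟩
  have h2 : (⨆ a, D.maxGenEigenspace a) ≤ D.maxGenEigenspace 0 := by
    refine iSup_le fun a => ?_
    by_cases ha : a = 0
    · rw [ha]
    · obtain ⟨φ, hφ⟩ : ∃ φ : Module.Dual ℚ k, φ a ≠ 0 := by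
        by_contra hcon
        push Not at hcon
        exact ha ((Module.forall_dual_apply_eq_zero_iff ℚ a).mp hcon)
      have h3 : D.maxGenEigenspace a = ⊥ :=
        no_ne hinf hP (φ : k →ₗ[ℚ] ℚ).toAddMonoidHom hG (a := a) hφ
      rw [h3]; exact bot_le
  have h1 : y ∈ ⨆ a, D.maxGenEigenspace a := by rw [iSup_D hx]; trivial
  have h4 := h2 h1
  rw [Module.End.mem_maxGenEigenspace] at h4
  obtain ⟨n, hn⟩ := h4
  rw [zero_smul, sub_zero] at hn
  exact ⟨n, hn⟩

/-- locally finite derivations are zero -/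
theorem der_zero [IsAlgClosed k] [CharZero k] {D : Module.End k L}
    (hD : ∀ u v : L, D ⁅u, v⁆ = ⁅D u, v⁆ + ⁅u, D v⁆) (hx : LFD D) : D = 0 := by
  by_contra hne
  have hLN := der_nil hinf hP hD hx
  let S : LieSubalgebra k L :=
    { LinearMap.ker D with
      lie_mem' := by
        intro a b ha hb
        have ha' : D a = 0 := ha
        have hb' : D b = 0 := hb
        change D ⁅a, b⁆ = 0
        rw [hD, ha', hb', zero_lie, lie_zero, add_zero] }
  have hS : S ≠ ⊤ := by
    intro h
    apply hne
    apply LinearMap.ext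
    intro y
    have : y ∈ S := by rw [h]; trivial
    exact this
  have hker : FiniteDimensional k (LinearMap.ker D) := hP S hS
  have hK : ∀ n : ℕ, FiniteDimensional k (LinearMap.ker (D ^ n)) := by
    intro n
    induction n with
    | zero =>
      have h : LinearMap.ker (D ^ 0) = ⊥ := by
        rw [pow_zero]
        exact LinearMap.ker_id
      rw [h]
      infer_instance
    | succ n ih =>
      rw [← Submodule.fg_iff_finiteDimensional]
      refine Submodule.fg_of_fg_map_of_fg_inf_ker D ?_ ?_
      · rw [Submodule.fg_iff_finiteDimensional]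
        refine Submodule.finiteDimensional_of_le (S₂ := LinearMap.ker (D ^ n)) ?_
        rintro _ ⟨m, hm, rfl⟩
        have hm' : (D ^ (n + 1)) m = 0 := hm
        rw [pow_succ, Module.End.mul_apply] at hm'
        exact hm'
      · rw [Submodule.fg_iff_finiteDimensional]
        exact Submodule.finiteDimensional_of_le (S₂ := LinearMap.ker D) (fun m hm => hm.2)
  have hcen : ∀ c : L, D c ∈ LieAlgebra.center k L → c ∈ LieAlgebra.center k L := by
    intro c hc
    rw [mem_center] at hc
    apply LF_central hinf hP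
    intro m
    obtain ⟨n, hn⟩ := hLN m
    refine ⟨LinearMap.ker (D ^ n), hK n, hn, fun v hv => ?_⟩
    have key : ∀ (n : ℕ) (v : L), (D ^ n) ⁅c, v⁆ = ⁅c, (D ^ n) v⁆ := by
      intro n
      induction n with
      | zero => intro v; rfl
      | succ n ih =>
        intro v
        rw [pow_succ, Module.End.mul_apply, Module.End.mul_apply, hD, hc, zero_add, ih]
    have hv' : (D ^ n) v = 0 := hv
    change (D ^ n) ⁅c, v⁆ = 0
    rw [key, hv', lie_zero]
  have hall : ∀ (n : ℕ) (m : L), (D ^ n) m = 0 → m ∈ LieAlgebra.center k L := by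
    intro n
    induction n with
    | zero =>
      intro m hm
      have hm' : m = 0 := hm
      rw [hm']
      exact Submodule.zero_mem (LieAlgebra.center k L : Submodule k L)
    | succ n ih =>
      intro m hm
      rw [pow_succ, Module.End.mul_apply] at hm
      exact hcen m (ih _ hm)
  apply center_ne_top hinf hP
  rw [eq_top_iff]
  intro m _
  obtain ⟨n, hn⟩ := hLN m
  exact hall n m hn

end

end Pool.Agent.Helper606_LI
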